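import Mathlib
import Pool.Agent.W388.TW.D0

/-!
# TW-Twist : the theta relation for the twists of a newform by a primitive character
-/

set_option autoImplicit false

open Complex Filter Topology Set UpperHalfPlane MatrixGroups CongruenceSubgroup ZMod

namespace Pool.Agent.W440.TW

/-- inverse of a primitive character is primitive -/
theorem inv_primitive {q : ℕ} (χ : DirichletCharacter ℂ q) (h : χ.IsPrimitive) :
    χ⁻¹.IsPrimitive := by
  have key : ∀ (ψ : DirichletCharacter ℂ q) (d : ℕ), ψ.FactorsThrough d → ψ⁻¹.FactorsThrough d := by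
    rintro ψ d ⟨hd, χ0, h0⟩
    exact ⟨hd, χ0⁻¹, by rw [h0, map_inv]⟩
  have hs : χ⁻¹.conductorSet = χ.conductorSet := by
    ext d
    constructor
    · intro hd
      have := key χ⁻¹ d hd
      rwa [inv_inv] at this
    · exact key χ d
  rw [DirichletCharacter.isPrimitive_def] at h ⊢
  refine Eq.trans ?_ h
  unfold DirichletCharacter.conductor
  rw [hs]

theorem gauss_ne_zero {q : ℕ} [NeZero q] (χ : DirichletCharacter ℂ q) (h : χ.IsPrimitive) :
    gaussSum χ (stdAddChar (N := q)) ≠ 0 := by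
  intro h0
  have h1 : ZMod.dft (fun j => χ j) = 0 := by
    ext k
    have := DirichletCharacter.IsPrimitive.fourierTransform_eq_inv_mul_gaussSum h k
    rw [h0, mul_zero] at this
    simpa using this
  have h2 : (fun j => χ j) = 0 := (LinearEquiv.map_eq_zero_iff _).1 h1
  have h3 := congrFun h2 1
  simp at h3

theorem gauss_conj {q : ℕ} [NeZero q] (χ : DirichletCharacter ℂ q) :
    ‖gaussSum χ⁻¹ (stdAddChar (N := q))‖ = ‖gaussSum χ (stdAddChar (N := q))‖ := by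
  have h1 : (starRingEnd ℂ) (gaussSum χ (stdAddChar (N := q))) =
      ∑ u : ZMod q, χ⁻¹ u * stdAddChar (-u) := by
    unfold gaussSum
    rw [map_sum]
    apply Finset.sum_congr rfl
    intro u _
    rw [map_mul]
    congr 1
    · exact MulChar.star_apply' χ u
    · rw [AddChar.map_neg_eq_conj]
  have h2 : ∑ u : ZMod q, χ⁻¹ u * stdAddChar (-u) = χ⁻¹ (-1) * gaussSum χ⁻¹ (stdAddChar (N := q)) := by
    unfold gaussSum
    rw [Finset.mul_sum, ← Equiv.sum_comp (Equiv.neg (ZMod q))]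
    apply Finset.sum_congr rfl
    intro u _
    simp only [Equiv.neg_apply, neg_neg]
    rw [← mul_assoc, ← map_mul, neg_one_mul]
  have h3 : ‖χ⁻¹ (-1 : ZMod q)‖ = 1 := by
    have := χ⁻¹.unit_norm_eq_one (-1)
    simpa using this
  rw [h2] at h1
  have h4 := congrArg norm h1
  rw [norm_mul, h3, one_mul, Complex.norm_conj] at h4
  exact h4.symm

/-- the point `a + i b` of the upper half plane -/
noncomputable def pt (a b : ℝ) (hb : 0 < b) : ℍ := ⟨⟨a, b⟩, hb⟩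

theorem pt_coe (a b : ℝ) (hb : 0 < b) : ((pt a b hb : ℍ) : ℂ) = (a : ℂ) + (b : ℂ) * Complex.I := by
  show (⟨a, b⟩ : ℂ) = _
  exact Complex.mk_eq_add_mul_I a b

/-- the sum over `n` for a fixed residue `u` -/
theorem hasSum_pt {N : ℕ} [NeZero N] {k : ℤ}
    (f : CuspForm (Gamma0 N : Subgroup (GL (Fin 2) ℝ)) k) {q : ℕ} [NeZero q] (u : ℤ)
    (y : ℝ) (hy : 0 < y / q) :
    HasSum (fun n : ℕ => (qExpansion 1 f).coeff n *
      (stdAddChar ((u : ZMod q) * (n : ZMod q)) * (Real.exp (-(2 * Real.pi * n * (y / q))) : ℂ)))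
      (f (pt ((u : ℝ) / q) (y / q) hy)) := by
  have h1 : (1 : ℝ) ∈ (Gamma0 N : Subgroup (GL (Fin 2) ℝ)).strictPeriods := by
    rw [strictPeriods_Gamma0]
    exact AddSubgroup.mem_zmultiples 1
  have h2 := ModularForm.hasSum_qExpansion (f := f) one_pos h1 (pt ((u : ℝ) / q) (y / q) hy)
  have hq : (q : ℂ) ≠ 0 := Nat.cast_ne_zero.2 (NeZero.ne q)
  convert h2 using 2 with n
  congr 1
  have h3 : ((u : ZMod q) * (n : ZMod q)) = ((u * n : ℤ) : ZMod q) := by push_cast; rfl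
  rw [h3, stdAddChar_coe, Function.Periodic.qParam, pt_coe, ← Complex.exp_nat_mul,
    Complex.ofReal_exp, ← Complex.exp_add]
  congr 1
  push_cast
  field_simp
  ring_nf
  simp only [Complex.I_sq]
  ring

/-- f at `(u + i y)/q` only depends on `u mod q` -/
theorem f_pt_congr {N : ℕ} [NeZero N] {k : ℤ}
    (f : CuspForm (Gamma0 N : Subgroup (GL (Fin 2) ℝ)) k) {q : ℕ} [NeZero q] (u v : ℤ)
    (huv : (u : ZMod q) = (v : ZMod q)) (y : ℝ) (hy : 0 < y / q) :
    f (pt ((u : ℝ) / q) (y / q) hy) = f (pt ((v : ℝ) / q) (y / q) hy) := by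
  have h1 := hasSum_pt f u y hy
  rw [huv] at h1
  exact h1.unique (hasSum_pt f v y hy)

/-- the Gauss sum trick -/
theorem hasSum_twist {N : ℕ} [NeZero N] {k : ℤ}
    (f : CuspForm (Gamma0 N : Subgroup (GL (Fin 2) ℝ)) k) {q : ℕ} [NeZero q]
    (χ : DirichletCharacter ℂ q) (hχ : χ.IsPrimitive)
    (y : ℝ) (hy : 0 < y / q) :
    HasSum (fun n : ℕ => gaussSum χ (stdAddChar (N := q)) * (χ⁻¹ (n : ZMod q) *
      (qExpansion 1 f).coeff n * (Real.exp (-(2 * Real.pi * n * (y / q))) : ℂ)))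
      (∑ u : (ZMod q)ˣ, χ (u : ZMod q) *
        f (pt ((((u : ZMod q).val : ℤ) : ℝ) / q) (y / q) hy)) := by
  have h1 : HasSum (fun n : ℕ => ∑ u : (ZMod q)ˣ, χ (u : ZMod q) * ((qExpansion 1 f).coeff n *
      (stdAddChar (((((u : ZMod q).val : ℤ)) : ZMod q) * (n : ZMod q)) *
        (Real.exp (-(2 * Real.pi * n * (y / q))) : ℂ))))
      (∑ u : (ZMod q)ˣ, χ (u : ZMod q) *
        f (pt ((((u : ZMod q).val : ℤ) : ℝ) / q) (y / q) hy)) := by
    apply hasSum_sum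
    intro u _
    exact (hasSum_pt f ((u : ZMod q).val : ℤ) y hy).mul_left _
  convert h1 using 2 with n
  have h2 := gaussSum_mulShift_of_isPrimitive (stdAddChar (N := q)) hχ (n : ZMod q)
  have h3 : gaussSum χ (stdAddChar.mulShift (n : ZMod q)) =
      ∑ u : (ZMod q)ˣ, χ (u : ZMod q) * stdAddChar ((n : ZMod q) * (u : ZMod q)) := by
    unfold gaussSum
    simp only [AddChar.mulShift_apply]
    symm
    apply Finset.sum_of_injOn (fun u : (ZMod q)ˣ => (u : ZMod q))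
    · intro a _ b _ hab
      exact Units.ext hab
    · intro a _
      simp
    · intro a _ ha
      rw [MulChar.map_nonunit _ (fun hu => ha ⟨hu.unit, by simp, by simp⟩), zero_mul]
    · intro a _
      rfl
  rw [h3] at h2
  have h4 : gaussSum χ (stdAddChar (N := q)) * (χ⁻¹ (n : ZMod q) *
      (qExpansion 1 f).coeff n * (Real.exp (-(2 * Real.pi * n * (y / q))) : ℂ)) =
      (χ⁻¹ (n : ZMod q) * gaussSum χ (stdAddChar (N := q))) *
      ((qExpansion 1 f).coeff n * (Real.exp (-(2 * Real.pi * n * (y / q))) : ℂ)) := by ring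
  rw [h4, ← h2, Finset.sum_mul]
  apply Finset.sum_congr rfl
  intro u _
  have h5 : (((((u : ZMod q).val : ℤ)) : ZMod q)) = (u : ZMod q) := by
    rw [Int.cast_natCast, ZMod.natCast_zmod_val]
  rw [h5, mul_comm (n : ZMod q)]
  ring

/-- modularity and Fricke -/
theorem f_pt_flip {N : ℕ} [NeZero N] {k : ℤ}
    (f : CuspForm (Gamma0 N : Subgroup (GL (Fin 2) ℝ)) k) (ε : ℝ) (hf : W388.IsNewf N k f ε)
    {q : ℕ} [NeZero q] (u v d : ℤ) (hd : q * d - N * u * v = 1) (t : ℝ) (ht : 0 < t)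
    (h1 : 0 < (1 / (Real.sqrt N * t)) / q) (h2 : 0 < (t / Real.sqrt N) / q) :
    f (pt ((u : ℝ) / q) ((1 / (Real.sqrt N * t)) / q) h1) =
      (ε : ℂ) * (t : ℂ) ^ k * f (pt ((v : ℝ) / q) ((t / Real.sqrt N) / q) h2) := by
  have hq : (q : ℂ) ≠ 0 := Nat.cast_ne_zero.2 (NeZero.ne q)
  have hN : (0 : ℝ) < N := Nat.cast_pos.2 (Nat.pos_of_ne_zero (NeZero.ne N))
  have hsN : 0 < Real.sqrt N := Real.sqrt_pos.2 hN
  let γ : SL(2, ℤ) := ⟨!![(q : ℤ), -u; -(N : ℤ) * v, d], by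
    rw [Matrix.det_fin_two_of]; linarith⟩
  have hγ : γ ∈ Gamma0 N := by
    rw [Gamma0_mem]
    simp [γ]
  set z := pt ((u : ℝ) / q) ((1 / (Real.sqrt N * t)) / q) h1 with hz
  set z' := pt ((v : ℝ) / q) ((t / Real.sqrt N) / q) h2 with hz'
  have e1 := SlashInvariantForm.slash_action_eqn_SL'' f hγ z
  have htc : (t : ℂ) ≠ 0 := Complex.ofReal_ne_zero.2 ht.ne'
  have hsc : ((Real.sqrt N : ℝ) : ℂ) ≠ 0 := Complex.ofReal_ne_zero.2 hsN.ne'
  have hss : ((Real.sqrt N : ℝ) : ℂ) * ((Real.sqrt N : ℝ) : ℂ) = (N : ℂ) := by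
    rw [← Complex.ofReal_mul, Real.mul_self_sqrt hN.le]; simp
  have hdc : (q : ℂ) * (d : ℂ) - (N : ℂ) * (u : ℂ) * (v : ℂ) = 1 := by exact_mod_cast hd
  have hzc : (z : ℂ) = ((u : ℂ) + (1 / (((Real.sqrt N : ℝ) : ℂ) * (t : ℂ))) * Complex.I) / q := by
    rw [hz, pt_coe]
    push_cast
    ring
  have hzc' : (z' : ℂ) = ((v : ℂ) + ((t : ℂ) / ((Real.sqrt N : ℝ) : ℂ)) * Complex.I) / q := by
    rw [hz', pt_coe]
    push_cast
    ring
  have hD : denom (γ : GL (Fin 2) ℝ) z = -(N : ℂ) * v * z + d := by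
    rw [ModularGroup.denom_apply]
    simp [γ]
  have hnum : num (γ : GL (Fin 2) ℝ) z = (q : ℂ) * z - u := by
    simp [num, γ]
    ring
  have hD0 : denom (γ : GL (Fin 2) ℝ) z ≠ 0 := denom_ne_zero _ _
  have hact : ((γ • z : ℍ) : ℂ) = num (γ : GL (Fin 2) ℝ) z / denom (γ : GL (Fin 2) ℝ) z := by
    rw [ModularGroup.sl_moeb]
    exact coe_smul_of_det_pos (by simp) z
  have hDt : ((Real.sqrt N : ℝ) : ℂ) * (z' : ℂ) / Complex.I =
      (t : ℂ) * denom (γ : GL (Fin 2) ℝ) z := by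
    rw [hD, hzc, hzc', div_eq_iff Complex.I_ne_zero]
    rw [← hss] at hdc ⊢
    field_simp
    have hI : Complex.I ^ 2 = -1 := Complex.I_sq
    linear_combination (-(t : ℂ) * Complex.I) * hdc + (((Real.sqrt N : ℝ) : ℂ) * v) * hI
  have hprod : ((γ • z : ℍ) : ℂ) * ((N : ℂ) * (z' : ℂ)) = -1 := by
    rw [hact, div_mul_eq_mul_div, div_eq_iff hD0]
    have h3 : (z' : ℂ) = Complex.I * ((t : ℂ) * denom (γ : GL (Fin 2) ℝ) z) /
        ((Real.sqrt N : ℝ) : ℂ) := by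
      rw [← hDt]
      field_simp
    rw [h3, hnum]
    have h4 : (q : ℂ) * z - u = (1 / (((Real.sqrt N : ℝ) : ℂ) * (t : ℂ))) * Complex.I := by
      rw [hzc]
      field_simp
      ring
    rw [h4, ← hss]
    field_simp
    rw [Complex.I_sq]
  have e2 := hf.fricke z' (γ • z) hprod
  rw [e2, hDt, mul_zpow] at e1
  have h5 : denom (γ : GL (Fin 2) ℝ) z ^ k ≠ 0 := zpow_ne_zero _ hD0
  apply mul_left_cancel₀ h5
  rw [← e1]
  ring

theorem HasSum.congr_fun' {f g : ℕ → ℂ} {a : ℂ} (h : HasSum f a) (hfg : ∀ n, f n = g n) :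
    HasSum g a := by
  have : f = g := funext hfg
  rwa [← this]

/-- the parts put together -/
theorem t_twist : W388.StTwist := by
  intro N _ k hk f ε hf q _ χ hχ hco
  have hq : (0 : ℝ) < q := Nat.cast_pos.2 (Nat.pos_of_ne_zero (NeZero.ne q))
  have hN : (0 : ℝ) < N := Nat.cast_pos.2 (Nat.pos_of_ne_zero (NeZero.ne N))
  have hsN : 0 < Real.sqrt N := Real.sqrt_pos.2 hN
  have hχi := inv_primitive χ hχ
  set g := gaussSum χ (stdAddChar (N := q)) with hg
  set g' := gaussSum χ⁻¹ (stdAddChar (N := q)) with hg'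
  have hg0 : g ≠ 0 := gauss_ne_zero χ hχ
  have hg0' : g' ≠ 0 := gauss_ne_zero χ⁻¹ hχi
  have hgn : ‖g'‖ = ‖g‖ := gauss_conj χ
  let n0 : (ZMod q)ˣ := ZMod.unitOfCoprime N hco.symm
  refine ⟨(ε : ℂ) * χ ((-n0 : (ZMod q)ˣ) : ZMod q) * g / g', ?_, ?_⟩
  · rw [norm_div, norm_mul, norm_mul, χ.unit_norm_eq_one, hgn, mul_one]
    have h1 : ‖(ε : ℂ)‖ = 1 := by
      rcases hf.sign with h | h <;> simp [h]
    rw [h1, one_mul, div_self (norm_ne_zero_iff.2 hg0)]
  intro t ht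
  have h1 : 0 < (1 / (Real.sqrt N * t)) / q := by positivity
  have h2 : 0 < (t / Real.sqrt N) / q := by positivity
  have s1 := hasSum_twist f χ⁻¹ hχi (1 / (Real.sqrt N * t)) h1
  have s2 := hasSum_twist f χ hχ (t / Real.sqrt N) h2
  rw [← hg'] at s1
  rw [← hg] at s2
  have key : (∑ u : (ZMod q)ˣ, χ⁻¹ (u : ZMod q) *
        f (pt ((((u : ZMod q).val : ℤ) : ℝ) / q) ((1 / (Real.sqrt N * t)) / q) h1)) =
      (ε : ℂ) * (t : ℂ) ^ k * χ ((-n0 : (ZMod q)ˣ) : ZMod q) *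
      (∑ u : (ZMod q)ˣ, χ (u : ZMod q) *
        f (pt ((((u : ZMod q).val : ℤ) : ℝ) / q) ((t / Real.sqrt N) / q) h2)) := by
    rw [← Equiv.sum_comp ((Equiv.mulLeft (-n0)).trans (Equiv.inv (ZMod q)ˣ))
      (fun u : (ZMod q)ˣ => χ (u : ZMod q) *
        f (pt ((((u : ZMod q).val : ℤ) : ℝ) / q) ((t / Real.sqrt N) / q) h2)), Finset.mul_sum]
    apply Finset.sum_congr rfl
    intro u _
    simp only [Equiv.trans_apply, Equiv.coe_mulLeft, Equiv.inv_apply]
    set v : (ZMod q)ˣ := (-n0 * u)⁻¹ with hv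
    have hdvd : (q : ℤ) ∣ (N * ((u : ZMod q).val : ℤ) * ((v : ZMod q).val : ℤ) + 1) := by
      rw [← ZMod.intCast_zmod_eq_zero_iff_dvd]
      push_cast
      rw [ZMod.natCast_zmod_val, ZMod.natCast_zmod_val]
      have h3 : (N : ZMod q) = (n0 : ZMod q) := by simp [n0]
      rw [h3, ← Units.val_mul, ← Units.val_mul]
      have h4 : n0 * u * v = -1 := by
        rw [hv, mul_inv_rev]
        rw [show (-n0 : (ZMod q)ˣ)⁻¹ = -(n0⁻¹) from inv_neg ..]
        rw [mul_neg, mul_neg]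
        group
      rw [h4]
      simp
    obtain ⟨d, hd⟩ := hdvd
    rw [f_pt_flip f ε hf ((u : ZMod q).val : ℤ) ((v : ZMod q).val : ℤ) d (by linarith) t ht h1 h2]
    have h5 : χ⁻¹ (u : ZMod q) = χ ((-n0 : (ZMod q)ˣ) : ZMod q) * χ (v : ZMod q) := by
      rw [← map_mul, ← Units.val_mul, MulChar.inv_apply_eq_inv']
      have h6 : -n0 * v = u⁻¹ := by
        rw [hv, mul_inv_rev]
        rw [mul_comm u⁻¹, mul_inv_cancel_left]
      rw [h6]
      apply inv_eq_of_mul_eq_one_left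
      rw [← map_mul, ← Units.val_mul, inv_mul_cancel, Units.val_one, map_one]
    rw [h5]
    ring
  rw [key] at s1
  set S2 := (∑ u : (ZMod q)ˣ, χ (u : ZMod q) *
        f (pt ((((u : ZMod q).val : ℤ) : ℝ) / q) ((t / Real.sqrt N) / q) h2)) with hS2
  have r1 : HasSum (fun n : ℕ => χ (n : ZMod q) * (qExpansion 1 f).coeff n *
      (Real.exp (-(2 * Real.pi * n / (Real.sqrt N * q)) / t) : ℂ))
      (g'⁻¹ * ((ε : ℂ) * (t : ℂ) ^ k * χ ((-n0 : (ZMod q)ˣ) : ZMod q) * S2)) := by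
    have := s1.mul_left g'⁻¹
    refine HasSum.congr_fun' this (fun n => ?_)
    rw [inv_mul_cancel_left₀ hg0', inv_inv]
    congr 4
    field_simp
  have r2 : HasSum (fun n : ℕ => (starRingEnd ℂ) (χ (n : ZMod q) * (qExpansion 1 f).coeff n) *
      (Real.exp (-(2 * Real.pi * n / (Real.sqrt N * q)) * t) : ℂ)) (g⁻¹ * S2) := by
    have := s2.mul_left g⁻¹
    refine HasSum.congr_fun' this (fun n => ?_)
    rw [inv_mul_cancel_left₀ hg0, map_mul]
    have h6 : (starRingEnd ℂ) (χ (n : ZMod q)) = χ⁻¹ (n : ZMod q) := MulChar.star_apply' χ _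
    have h7 : (starRingEnd ℂ) ((qExpansion 1 f).coeff n) = (qExpansion 1 f).coeff n :=
      Complex.conj_eq_iff_im.2 (hf.real n)
    rw [h6, h7]
    congr 4
    field_simp
  rw [r1.tsum_eq, r2.tsum_eq]
  field_simp

end Pool.Agent.W440.TW
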